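import Pool.Agent.R368.K3.Defs
import Pool.Agent.R368.Zero.Main

/-!
# Zero-cycles on a variety and on its products with curves
-/

open CategoryTheory CategoryTheory.Limits AlgebraicGeometry
open Pool.Agent.H914 Pool.Agent.H914.VarClass Pool.Agent.H914.VarClass.Obj
open Pool.Agent.R903 Pool.Agent.R903.WeilTheory Pool.Agent.R368.Zero

universe u v w

namespace Pool.Agent.R368.K3

variable {k : Type u} [Field k] {𝒱 : VarClass k} {C : ChowTheory.{u, v} 𝒱}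
  {W : WeilTheory.{u, v, w} C} {X Y Γ Z : 𝒱.Obj}

/-! ### One variety -/

theorem homTriv_of_weight (h : WeightKills W Z) : HomTrivKills W Z Z :=
  fun γ hγ hk => h γ hγ fun a _ => hk a

theorem degree_of_weight (hZ : 0 < Z.dim) (h : WeightKills W Z) : DegreeScales W Z := by
  intro d hd z hz
  have h1 := h (d - (2 * Z.dim - 1 : ℚ) • C.diagC Z)
    (Submodule.sub_mem _ hd.1 (Submodule.smul_mem _ _ (C.diagC_mem Z))) (fun a ha => by
      rw [W.act_sub, W.act_smul, LinearMap.sub_apply, LinearMap.smul_apply, W.act_diagC,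
        hd.2 _ a ha, Nat.cast_sub (by omega)]
      push_cast
      rw [sub_self]) z hz
  rw [C.act_sub, C.act_smul, LinearMap.sub_apply, LinearMap.smul_apply, C.act_diagC,
    sub_eq_zero] at h1
  exact h1

theorem homTriv_of_degree (hK : KunnethFor W Z) (h : DegreeScales W Z) : HomTrivKills W Z Z := by
  intro γ hγ hk z hz
  obtain ⟨d, hd⟩ := exists_isDegree hK
  have hd' : W.IsDegree Z (d + γ) := by
    refine ⟨Submodule.add_mem _ hd.1 hγ, fun j a ha => ?_⟩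
    rw [W.act_add, LinearMap.add_apply, hd.2 j a ha, hk a, add_zero]
  have h1 := h _ hd' z hz
  rw [C.act_add, LinearMap.add_apply, h d hd z hz] at h1
  exact add_eq_left.1 h1

theorem lefAll_of_weight (hF : DivisorsByH1 W) (hZ : 0 < Z.dim) (h : WeightKills W Z) :
    LefAll W Z := by
  intro D Λ hL
  refine ⟨fun y hy h0 => ?_, fun z hz => ?_⟩
  · rw [← hL.left hZ hF hy, h0, map_zero]
  · have hLm : C.span (𝟙 Z) (𝟙 Z) (D ^ (Z.dim - 1)) ∈ C.gr (Z.prod Z) (Z.dim - 1 + Z.dim) :=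
      C.span_mem _ _ (pow_mem hL.1 _) (by omega)
    have h1 := h (C.comp Λ (C.span (𝟙 Z) (𝟙 Z) (D ^ (Z.dim - 1))) - C.diagC Z)
      (Submodule.sub_mem _ (C.comp_mem hL.2.1 hLm (by omega)) (C.diagC_mem Z)) (fun b hb => by
        rw [W.act_sub, LinearMap.sub_apply, W.act_comp _ hLm, W.act_diagC, actH_lef,
          hL.2.2.2 b hb, sub_self]) z hz
    rw [C.act_sub, LinearMap.sub_apply, C.act_comp, act_lef, C.act_diagC, sub_eq_zero] at h1
    refine ⟨C.act Λ z, ⟨C.act_mem hL.2.1 hz.1 (by omega), ?_⟩, h1⟩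
    rw [W.cl_act, hz.2, map_zero]

theorem lefSome_of_lefAll (hH : HasLefOne W) (hZ : 0 < Z.dim) (h : LefAll W Z) : LefSome W Z := by
  obtain ⟨D, Λ, hL⟩ := hH Z hZ
  exact ⟨D, Λ, hL, (h D Λ hL).2⟩

theorem weight_of_lefSome (hF : DivisorsByH1 W) (hZ : 0 < Z.dim) (h : LefSome W Z) :
    WeightKills W Z := by
  intro γ hγ hk z hz
  obtain ⟨D, Λ, hL, hS⟩ := h
  obtain ⟨y, hy, rfl⟩ := hS z hz
  have hpz : InKer (W.cl Z) (C.gr Z Z.dim) (C.act γ (D ^ (Z.dim - 1) * y)) :=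
    ⟨C.act_mem hγ hz.1 (by omega), by rw [W.cl_act, hz.2, map_zero]⟩
  obtain ⟨y', hy', hyy⟩ := hS _ hpz
  have hLm : C.span (𝟙 Z) (𝟙 Z) (D ^ (Z.dim - 1)) ∈ C.gr (Z.prod Z) (Z.dim - 1 + Z.dim) :=
    C.span_mem _ _ (pow_mem hL.1 _) (by omega)
  have h1 := hF Z (C.comp (C.comp (C.span (𝟙 Z) (𝟙 Z) (D ^ (Z.dim - 1))) γ) Λ)
    (C.comp_mem (C.comp_mem (r := Z.dim - 1 + Z.dim) hLm hγ (by omega)) hL.2.1 (by omega))
    (fun a ha => by
      rw [W.act_comp _ hL.2.1, W.act_comp _ hγ, actH_lef]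
      have h2 : W.cl Z (D ^ (Z.dim - 1)) * a ∈ W.gr Z (2 * Z.dim - 1) := by
        have h3 := W.mul_mem (W.cl_mem (pow_mem hL.1 (Z.dim - 1))) ha
        rwa [show 2 * (Z.dim - 1) + 1 = 2 * Z.dim - 1 by omega] at h3
      rw [hk _ h2, map_zero]) y hy
  rw [C.act_comp, C.act_comp, act_lef, ← hyy, hL.left hZ hF hy'] at h1
  rw [← hyy, h1, mul_zero]

/-! ### A variety and its products with curves -/

lemma eq_zero_of_top {a : W.H X} (ha : a ∈ W.gr X (2 * X.dim)) (ht : W.tr X a = 0) : a = 0 := by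
  apply W.nondeg
  intro b
  refine gr_induction (W.isInternal X) (p := fun b => W.tr X (a * b) = 0) ?_ ?_ b
  · intro l b hb
    by_cases hl : l = 0
    · subst hl
      rw [(W.isPoincareAlgebra X).gr_zero, Submodule.mem_span_singleton] at hb
      obtain ⟨c, rfl⟩ := hb
      rw [mul_smul_comm, mul_one, map_smul, ht, smul_zero]
    · exact W.tr_eq_zero (W.mul_mem ha hb) (by omega)
  · intro b b' hb hb'
    rw [mul_add, map_add, hb, hb', add_zero]

lemma eq_smul_of_noPoints (h : NoPoints W X) {x₀ : C.CH X} (hx₀ : x₀ ∈ C.gr X X.dim)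
    (hd : C.deg X x₀ ≠ 0) {y : C.CH X} (hy : y ∈ C.gr X X.dim) :
    y = (C.deg X y / C.deg X x₀) • x₀ := by
  rw [← sub_eq_zero]
  have hm : y - (C.deg X y / C.deg X x₀) • x₀ ∈ C.gr X X.dim :=
    Submodule.sub_mem _ hy (Submodule.smul_mem _ _ hx₀)
  refine h _ ⟨hm, eq_zero_of_top (W.cl_mem hm) ?_⟩
  rw [W.tr_cl, map_sub, map_smul, smul_eq_mul, div_mul_cancel₀ _ hd, sub_self, Rat.cast_zero]

lemma exists_eq_product (hP : PointsOfProducts C) (h : NoPoints W X) {x₀ : C.CH X}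
    (hx₀ : x₀ ∈ C.gr X X.dim) (hd : C.deg X x₀ ≠ 0) {z : C.CH (Γ.prod X)}
    (hz : z ∈ C.gr (Γ.prod X) (Γ.prod X).dim) :
    ∃ u ∈ C.gr Γ Γ.dim, z = C.pull (fst Γ X) u * C.pull (snd Γ X) x₀ := by
  refine Submodule.span_induction (p := fun z _ => ∃ u ∈ C.gr Γ Γ.dim,
    z = C.pull (fst Γ X) u * C.pull (snd Γ X) x₀) ?_ ?_ ?_ ?_ (hP Γ X z hz)
  · rintro _ ⟨x, hx, y, hy, rfl⟩
    refine ⟨(C.deg X y / C.deg X x₀) • x, Submodule.smul_mem _ _ hx, ?_⟩
    conv_lhs => rw [eq_smul_of_noPoints h hx₀ hd hy]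
    rw [map_smul, map_smul, mul_smul_comm, smul_mul_assoc]
  · exact ⟨0, Submodule.zero_mem _, by rw [map_zero, zero_mul]⟩
  · rintro _ _ _ _ ⟨u, hu, rfl⟩ ⟨u', hu', rfl⟩
    exact ⟨u + u', Submodule.add_mem _ hu hu', by rw [map_add, add_mul]⟩
  · rintro q _ _ ⟨u, hu, rfl⟩
    exact ⟨q • u, Submodule.smul_mem _ _ hu, by rw [map_smul, smul_mul_assoc]⟩

theorem weight_of_noPoints (hPol : C.Polarized) (hF : DivisorsByH1 W) (hP : PointsOfProducts C)
    (h : NoPoints W X) (hΓ : Γ.dim = 1) : WeightKills W (Γ.prod X) := by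
  obtain ⟨D, hD, hd⟩ := hPol X
  set x₀ : C.CH X := D ^ X.dim with hx₀
  have hx₀m : x₀ ∈ C.gr X X.dim := pow_mem hD _
  have hZ : (Γ.prod X).dim = 1 + X.dim := by rw [dim_prod, hΓ]
  have hpush : ∀ u : C.CH Γ, C.push (fst Γ X) (C.pull (fst Γ X) u * C.pull (snd Γ X) x₀) =
      C.deg X x₀ • u := by
    intro u
    rw [C.mul_push, push_fst_pull_snd, mul_comm, algebraMap_mul_eq]
  intro δ hδ hk z hz
  obtain ⟨u, hu, rfl⟩ := exists_eq_product hP h hx₀m hd hz.1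
  have hz' : InKer (W.cl (Γ.prod X)) (C.gr (Γ.prod X) (Γ.prod X).dim)
      (C.act δ (C.pull (fst Γ X) u * C.pull (snd Γ X) x₀)) :=
    ⟨C.act_mem hδ hz.1 (by omega), by rw [W.cl_act, hz.2, map_zero]⟩
  obtain ⟨u', hu', hu'eq⟩ := exists_eq_product hP h hx₀m hd hz'.1
  have huker : InKer (W.cl Γ) (C.gr Γ 1) u := by
    refine ⟨by rwa [hΓ] at hu, ?_⟩
    have h1 := congrArg (W.push (fst Γ X)) hz.2
    rw [← W.cl_push, hpush, map_zero] at h1
    rw [← inv_smul_smul₀ hd u, Algebra.smul_def, W.cl_mul, h1, mul_zero]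
  have hτ : C.span (fst Γ X) (𝟙 (Γ.prod X)) (C.pull (snd Γ X) x₀) ∈
      C.gr (Γ.prod (Γ.prod X)) (1 + X.dim) :=
    C.span_mem _ _ (C.pull_mem _ hx₀m) (by rw [hZ, hΓ]; omega)
  have hg : C.graph (fst Γ X) ∈ C.gr ((Γ.prod X).prod Γ) 1 := by
    have := C.graph_mem (fst Γ X)
    rwa [hΓ] at this
  set γ := C.comp (C.comp (C.span (fst Γ X) (𝟙 (Γ.prod X)) (C.pull (snd Γ X) x₀)) δ)
    (C.graph (fst Γ X)) with hγ
  have hγm : γ ∈ C.gr (Γ.prod Γ) Γ.dim := by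
    have h1 := C.comp_mem (r := 1 + X.dim) hτ hδ (by omega)
    exact C.comp_mem h1 hg (by omega)
  have h1 := hF Γ γ hγm (fun a ha => by
    rw [hγ, W.act_comp _ hg, W.act_comp _ hδ, hk _ (W.act_mem hτ ha (by rw [hZ, hΓ]; omega)),
      map_zero]) u huker
  rw [hγ, C.act_comp, C.act_comp, C.act_graph, C.act_span, C.push_id,
    mul_comm (C.pull (snd Γ X) x₀), hu'eq, hpush] at h1
  rw [hu'eq, (smul_eq_zero.1 h1).resolve_left hd, map_zero, zero_mul]

theorem curve_of_homTriv (hP : C.Polarized) (hΓ : Γ.dim = 1)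
    (h : HomTrivKills W (Γ.prod X) (Γ.prod X)) : HomTrivKills W Γ X := by
  intro γ hγ hk
  exact killsPoints_of_product hP hΓ hγ fun δ hδ hδ0 => h δ hδ fun a =>
    hδ0 a fun b _ => hk b

theorem noPoints_of_curves (hPol : C.Polarized) (hC : CurveGenerated W) (hX : 0 < X.dim)
    (hH : W.gr X (2 * X.dim - 1) = ⊥) (h : ForCurves fun Γ : 𝒱.Obj => HomTrivKills W Γ X) :
    NoPoints W X := by
  intro z hz
  obtain ⟨Γ, f, y, hΓ, hy, rfl⟩ := hC X z hz
  obtain ⟨ρ, hρ, h0, h2, hfix⟩ := exists_curve_projector (W := W) hPol hΓ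
  have hgm := C.graph_mem f
  have hmem : C.comp ρ (C.graph f) ∈ C.gr (Γ.prod X) X.dim := C.comp_mem hρ hgm (by rw [hΓ]; omega)
  have hzero : ∀ a, W.act (C.comp ρ (C.graph f)) a = 0 := by
    intro a
    rw [W.act_comp _ hgm]
    refine gr_induction (W.isInternal Γ) (p := fun a => W.act (C.graph f) (W.act ρ a) = 0) ?_ ?_ a
    · intro l a ha
      by_cases hl0 : l = 0
      · subst hl0; rw [h0 a ha, map_zero]
      by_cases hl1 : l = 1
      · subst hl1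
        have h3 : W.act (C.graph f) (W.act ρ a) ∈ W.gr X (2 * X.dim - 1) :=
          W.act_mem hgm (W.act_mem (j := 1) hρ ha (by rw [hΓ])) (by rw [hΓ]; omega)
        rwa [hH, Submodule.mem_bot] at h3
      by_cases hl2 : l = 2
      · subst hl2; rw [h2 a ha, map_zero]
      · rw [W.gr_eq_bot Γ l (by rw [hΓ]; omega), Submodule.mem_bot] at ha
        rw [ha, map_zero, map_zero]
    · intro a b ha hb
      rw [map_add, map_add, ha, hb, add_zero]
  have hy' : InKer (W.cl Γ) (C.gr Γ Γ.dim) y := by rwa [hΓ]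
  have h3 := h Γ hΓ _ hmem hzero y hy'
  rwa [C.act_comp, hfix y hy', C.act_graph] at h3

theorem noPoints_tfae (hF : HasOneCycleFacts W) (hP : PointsOfProducts C) (hH : NoAlbanese W X) :
    List.TFAE [NoPoints W X, ForCurves fun Γ : 𝒱.Obj => LefAll W (Γ.prod X),
      ForCurves fun Γ : 𝒱.Obj => LefSome W (Γ.prod X),
      ForCurves fun Γ : 𝒱.Obj => WeightKills W (Γ.prod X),
      ForCurves fun Γ : 𝒱.Obj => HomTrivKills W (Γ.prod X) (Γ.prod X),
      ForCurves fun Γ : 𝒱.Obj => HomTrivKills W Γ X] := by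
  have hpos : ∀ Γ : 𝒱.Obj, Γ.dim = 1 → 0 < (Γ.prod X).dim := fun Γ hΓ => by
    rw [dim_prod, hΓ]; omega
  tfae_have 1 → 4 := fun h Γ hΓ => weight_of_noPoints hF.polarized hF.divisorsByH1 hP h hΓ
  tfae_have 4 → 2 := fun h Γ hΓ => lefAll_of_weight hF.divisorsByH1 (hpos Γ hΓ) (h Γ hΓ)
  tfae_have 2 → 3 := fun h Γ hΓ => lefSome_of_lefAll hF.hasLefOne (hpos Γ hΓ) (h Γ hΓ)
  tfae_have 3 → 4 := fun h Γ hΓ => weight_of_lefSome hF.divisorsByH1 (hpos Γ hΓ) (h Γ hΓ)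
  tfae_have 4 → 5 := fun h Γ hΓ => homTriv_of_weight (h Γ hΓ)
  tfae_have 5 → 6 := fun h Γ hΓ => curve_of_homTriv hF.polarized hΓ (h Γ hΓ)
  tfae_have 6 → 1 := noPoints_of_curves hF.polarized hF.curveGenerated hH.1 hH.2
  tfae_finish

theorem noPoints_iff_degree (hF : HasOneCycleFacts W) (hP : PointsOfProducts C)
    (hH : NoAlbanese W X) (hK : ForCurves fun Γ : 𝒱.Obj => KunnethFor W (Γ.prod X)) :
    NoPoints W X ↔ ForCurves fun Γ : 𝒱.Obj => DegreeScales W (Γ.prod X) := by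
  have hpos : ∀ Γ : 𝒱.Obj, Γ.dim = 1 → 0 < (Γ.prod X).dim := fun Γ hΓ => by
    rw [dim_prod, hΓ]; omega
  refine ⟨fun h Γ hΓ => degree_of_weight (hpos Γ hΓ)
    (weight_of_noPoints hF.polarized hF.divisorsByH1 hP h hΓ), fun h => ?_⟩
  exact noPoints_of_curves hF.polarized hF.curveGenerated hH.1 hH.2 fun Γ hΓ =>
    curve_of_homTriv hF.polarized hΓ (homTriv_of_degree (hK Γ hΓ) (h Γ hΓ))

end Pool.Agent.R368.K3
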