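import Pool.Agent.R368.Zero.Defs
import Pool.Agent.R368.Nor.Defs

/-!
# Zero-cycles on a variety and on its products with curves: definitions
-/

open CategoryTheory CategoryTheory.Limits AlgebraicGeometry
open Pool.Agent.H914 Pool.Agent.H914.VarClass Pool.Agent.H914.VarClass.Obj
open Pool.Agent.R903 Pool.Agent.R368.Zero

universe u v w

namespace Pool.Agent.R368.K3

/-- `U''` lies in the span of the products `f x * g y`, `x` in `U`, `y` in `U'`. -/
def SpannedByProducts {A B E : Type v} [CommRing A] [Algebra ℚ A] [CommRing B] [Algebra ℚ B]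
    [CommRing E] [Algebra ℚ E] (U : Submodule ℚ A) (U' : Submodule ℚ B) (U'' : Submodule ℚ E)
    (f : A →ₐ[ℚ] E) (g : B →ₐ[ℚ] E) : Prop :=
  ∀ z ∈ U'', z ∈ Submodule.span ℚ {w | ∃ x ∈ U, ∃ y ∈ U', w = f x * g y}

/-- The kernel of `f` on `U` is zero. -/
def NoKer {A : Type v} [CommRing A] [Algebra ℚ A] {H : Type w} [Ring H] (f : A →+* H)
    (U : Submodule ℚ A) : Prop :=
  ∀ z, InKer f U z → z = 0

/-- The map `T` is zero. -/
def IsZeroMap {K : Type w} [Field K] {V V' : Type w} [Ring V] [Algebra K V] [Ring V']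
    [Algebra K V'] (T : V →ₗ[K] V') : Prop :=
  ∀ a, T a = 0

variable {k : Type u} [Field k] {𝒱 : VarClass k} {C : ChowTheory.{u, v} 𝒱}

/-- The group of zero-cycles on `X × Y` is spanned by the products of zero-cycles on `X` and on `Y`
(known if `k` is algebraically closed). -/
def PointsOfProducts (C : ChowTheory.{u, v} 𝒱) : Prop :=
  ∀ X Y : 𝒱.Obj, SpannedByProducts (C.gr X X.dim) (C.gr Y Y.dim) (C.gr (X.prod Y) (X.prod Y).dim)
    (C.pull (fst X Y)) (C.pull (snd X Y))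

/-- `CH^n(X)_hom = 0`, where `n = dim X`. -/
def NoPoints (W : WeilTheory.{u, v, w} C) (X : 𝒱.Obj) : Prop :=
  NoKer (W.cl X) (C.gr X X.dim)

/-- `H^(2n-1)(X) = 0`, where `n = dim X > 0` (for a K3 surface, `H^3(X) = 0`). -/
def NoAlbanese (W : WeilTheory.{u, v, w} C) (X : 𝒱.Obj) : Prop :=
  0 < X.dim ∧ W.gr X (2 * X.dim - 1) = ⊥

/-- `γ` lies in `CH^(dim Y)(X × Y)`. -/
def IsCor {X Y : 𝒱.Obj} (γ : C.CH (X.prod Y)) : Prop :=
  γ ∈ C.gr (X.prod Y) Y.dim

/-- `γ` acts as zero on the cohomology of `X`, that is, it is homologically trivial. -/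
def ActsZero (W : WeilTheory.{u, v, w} C) {X Y : 𝒱.Obj} (γ : C.CH (X.prod Y)) : Prop :=
  IsZeroMap (W.act γ)

/-- Homologically trivial classes in `CH^(dim Y)(X × Y)` kill `CH^n(X)_hom`, `n = dim X`. -/
def HomTrivKills (W : WeilTheory.{u, v, w} C) (X Y : 𝒱.Obj) : Prop :=
  ∀ γ : C.CH (X.prod Y), IsCor γ → ActsZero W γ → KillsPoints W γ

/-- Classes in `CH^n(Z × Z)` which act as zero on `H^(2n-1)(Z)` kill `CH^n(Z)_hom`, `n = dim Z`. -/
def WeightKills (W : WeilTheory.{u, v, w} C) (Z : 𝒱.Obj) : Prop :=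
  ∀ γ : C.CH (Z.prod Z), IsCor γ → KillsSub (W.gr Z (2 * Z.dim - 1)) (W.act γ) → KillsPoints W γ

/-- `D^(n-1) : CH^1(Z)_hom → CH^n(Z)_hom` is bijective for all divisor classes `D` for which the
inverse of `D^(n-1) : H^1(Z) → H^(2n-1)(Z)` is algebraic. -/
def LefAll (W : WeilTheory.{u, v, w} C) (Z : 𝒱.Obj) : Prop :=
  ∀ D Λ, IsLefOne W Z D Λ → ArithLefOne W Z D

/-- `D^(n-1) : CH^1(Z)_hom → CH^n(Z)_hom` is surjective for some such `D`. -/
def LefSome (W : WeilTheory.{u, v, w} C) (Z : 𝒱.Obj) : Prop :=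
  ∃ D Λ, IsLefOne W Z D Λ ∧ SurjOne W Z D

/-- All degree operators on `Z` act on `CH^n(Z)_hom` as multiplication by `2n - 1`, `n = dim Z`. -/
def DegreeScales (W : WeilTheory.{u, v, w} C) (Z : 𝒱.Obj) : Prop :=
  ∀ d, W.IsDegree Z d → ScalesKer (W.cl Z) (C.gr Z Z.dim) (C.act d) (2 * Z.dim - 1)

/-- `P Γ` holds for all curves `Γ` in `𝒱`. -/
def ForCurves (P : 𝒱.Obj → Prop) : Prop :=
  ∀ Γ : 𝒱.Obj, Γ.dim = 1 → P Γ

end Pool.Agent.R368.K3
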